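import Mathlib
import Pool.Agent.U479.DP.Prime
import Pool.Agent.Y205.AV.Large
import Pool.Agent.Y939.NC.Reg

set_option autoImplicit false

/-!
# A prime divisor with `h¹ ≠ 0` gives one of standard class with all multiplicities at least three

Let `k` be a field of characteristic zero and `X` the blow-up of the plane at `s ≥ 4` generic
points. Let `C` be a prime divisor of class `(d, w)` on `X`. Then `h¹ (C) = 0`, or finitely many
quadratic transformations carry `(d, w)` to a standard class `(d1, w1)` of a prime divisor `C1` on the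
blow-up at generic points `P1` such that at least ten of the `w1 i` are at least three; if all
points of multiplicity `≤ 2` are OMITTED, then `C1` is a prime divisor on the blow-up at the
remaining points, of standard class with all multiplicities `≥ 3`, with the same `h¹` as `C`, and this
class is neither `Large` nor `Good`.

So `h¹ = 0` for all prime divisors, if this holds for those of standard class with all multiplicities
at least three which are neither large nor good. Points of multiplicity two are harmless: if the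
class of `C1` without these points is good or large (for instance if it has multiplicities `m` or
`m + 1` at `4 N ≥ 144` points), then `h¹ (C) = 0`.

`Large` and `Good` are the conditions of `Pool.Agent.Y205.AV.Large` and `Pool.Agent.Y939.NC.Good`.
-/

namespace Pool.Agent.Results.MP_0dccba_ag.PrimeAboveTwo

open MvPolynomial Pool.Agent.TH167.SHDefs
open Pool.Agent.Y536.SH (Standard)
open Pool.Agent.Y205.AV (Large)
open Pool.Agent.Y939.NC (Good)

/-- `h¹` of the class `d H - ∑ w i E i`: the dimension of the linear system minus the virtual one. -/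
noncomputable def hOne {k : Type} [Field k] {s : ℕ} (P : Fin s → Fin 2 → k) (d : ℕ)
    (w : Fin s → ℕ) : ℤ := dimL P d w - virtdim d w

/-- The coordinates of the points are algebraically independent over `ℚ`. -/
def Generic {k : Type} [Field k] [CharZero k] {s : ℕ} (P : Fin s → Fin 2 → k) : Prop :=
  AlgebraicIndependent ℚ (fun ij : Fin s × Fin 2 => P ij.1 ij.2)

theorem result : ∃ N0 : ℕ, ∀ (k : Type) [Field k] [CharZero k] (s : ℕ), 4 ≤ s →
    ∀ (P : Fin s → Fin 2 → k), Generic P →
      ∀ (d : ℕ) (w : Fin s → ℕ) (C : MvPolynomial (Fin 3) k), Curve P C d w →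
        hOne P d w = 0 ∨
        ∃ (d1 : ℕ) (w1 : Fin s → ℕ) (P1 : Fin s → Fin 2 → k) (C1 : MvPolynomial (Fin 3) k)
          (t : ℕ) (e : Fin t ↪ Fin s),
          Generic P1 ∧ Relation.ReflTransGen Quadratic (d, w) (d1, w1) ∧
          Curve P1 C1 d1 w1 ∧ Standard d1 w1 ∧ (∀ i, i ∈ Set.range e ↔ 3 ≤ w1 i) ∧ 10 ≤ t ∧
          Curve (fun i => P1 (e i)) C1 d1 (fun i => w1 (e i)) ∧
          hOne (fun i => P1 (e i)) d1 (fun i => w1 (e i)) = hOne P d w ∧
          ¬ Large d1 (fun i => w1 (e i)) ∧ ¬ Good N0 d1 (fun i => w1 (e i)) := by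
  obtain ⟨N0, hN0⟩ := Pool.Agent.Y939.NC.reg_exp
  refine ⟨N0, fun k _ _ s hs P hP d w C hC => ?_⟩
  obtain ⟨r, rfl⟩ : ∃ r, s = r + 4 := ⟨s - 4, by omega⟩
  have hone : ∀ {n : ℕ} (Q : Fin n → Fin 2 → k) (c : ℕ) (v : Fin n → ℕ), hOne Q c v =
      (Module.finrank k
        ↥(Pool.Agent.W609.CR.VS (fun j => Pool.Agent.W609.CR.aff (Q j)) v c) : ℤ) -
        Pool.Agent.TH167.SH.chi c v := by
    intro n Q c v
    unfold hOne
    rw [Pool.Agent.TH167.SH.dimL_eq, Pool.Agent.TH167.SH.virtdim_eq]
    ring
  obtain ⟨hCi, hCh, hCo⟩ := Pool.Agent.TH167.SH.curve_iff.1 hC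
  by_cases h0 : hOne P d w = 0
  · exact Or.inl h0
  right
  rcases Pool.Agent.U479.DP.prime_three hP hCi hCh hCo with h | ⟨P1, d1, w1, G1, t, e, b1, b2, b3,
    b4, b5, b6, b7, b8, b9⟩
  · exact absurd (by rw [hone, h, sub_self]) h0
  have hC1 : Curve P1 G1 d1 w1 := Pool.Agent.TH167.SH.curve_iff.2 ⟨b4, b5, b6⟩
  have hgen := Pool.Agent.TH885.CO.alg_emb e b1
  have hC2 : Curve (fun i => P1 (e i)) G1 d1 (fun i => w1 (e i)) :=
    ⟨hC1.irreducible, hC1.homogeneous, fun i => hC1.mult (e i)⟩
  have hst : Standard d1 (fun i => w1 (e i)) := fun i j l hij hil hjl =>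
    b3 (e i) (e j) (e l) (fun h => hij (e.injective h)) (fun h => hil (e.injective h))
      fun h => hjl (e.injective h)
  have h1 : hOne (fun i => P1 (e i)) d1 (fun i => w1 (e i)) = hOne P d w := by
    rw [hone, hone]
    exact b9
  have hno : ¬ Pool.Agent.H932R3.ExpDim k (fun i => w1 (e i)) (fun i => P1 (e i)) d1 := by
    intro h
    rw [Pool.Agent.TH442.NF.expDim_iff] at h
    have hpos := Pool.Agent.TH167.TT.pos_of_mem ((Pool.Agent.TH167.SH.mem_VS _ _ _ _).2
      ⟨b5, fun j => (b6 (e j)).1⟩) b4.ne_zero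
    rw [← h1, hone] at h0
    omega
  refine ⟨d1, w1, P1, G1, t, e, b1, Pool.Agent.TH167.SH.chain_conv b2, hC1, b3, fun i => ?_, b8,
    hC2, h1, fun h => hno (Pool.Agent.Y205.AV.large_exp h hgen),
    fun h => hno (Pool.Agent.Y939.NC.good_exp hN0 (by omega) hst h hgen)⟩
  rw [← b7 i, Finset.mem_map]
  exact ⟨fun ⟨j, hj⟩ => ⟨j, Finset.mem_univ _, hj⟩, fun ⟨j, _, hj⟩ => ⟨j, hj⟩⟩

end Pool.Agent.Results.MP_0dccba_ag.PrimeAboveTwo
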