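import Mathlib
import Pool.Agent.U11.Near
import Pool.Agent.U11.Count
import Pool.Agent.U11.Irr4

set_option autoImplicit false

/-!
# Prime divisors on the plane blown up at eleven generic points

Let `P i` be 11 points of the plane over a field `k` of characteristic zero whose 22 coordinates are
algebraically independent over `ℚ`, and let `C` be a prime divisor, the strict transform of an
irreducible curve of degree `d` with multiplicities exactly `w i`.
* If the `w i` are in `{m, m + 1}` for some `m ≥ 1` and `C` moves (`h⁰(C) ≥ 2`), then `h¹(C) = 0`; more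
  precisely `h¹(C) = 0`, or `h⁰(C) = 1`, `χ(C) ≤ 0` and `√11 (2 d + 3) < 11 + 2 ∑ w i`.
* For ARBITRARY `w i` with `√11 (2 d + 3) < 11 + 2 ∑ w i` the curve is rigid, `h⁰(C) = 1`, `3 ∣ d`, the
  multiplicities satisfy a sharp linear inequality, and `11 + 2 ∑ w i < √11 (2 d + 3) + ε` for `d ≥ d₀(ε)`.
* The gaps between the degrees of the near-uniform prime divisors with `h¹ ≠ 0` tend to infinity.
-/

namespace Pool.Agent.Results.MP_0dccba_ag.PrimeElevenRigid

open MvPolynomial

/-- The homogeneous ideal of the point `(P 0 : P 1 : 1)`. -/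
noncomputable def pt {k : Type} [Field k] (P : Fin 2 → k) : Ideal (MvPolynomial (Fin 3) k) :=
  Ideal.span
    ({MvPolynomial.X 0 - MvPolynomial.C (P 0) * MvPolynomial.X 2,
      MvPolynomial.X 1 - MvPolynomial.C (P 1) * MvPolynomial.X 2} :
      Set (MvPolynomial (Fin 3) k))

/-- The forms of degree `d` with multiplicity at least `w i` at `P i` for all `i`. -/
noncomputable def forms {k : Type} [Field k] {s : ℕ} (P : Fin s → Fin 2 → k) (w : Fin s → ℕ)
    (d : ℕ) : Submodule k (MvPolynomial (Fin 3) k) :=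
  MvPolynomial.homogeneousSubmodule (Fin 3) k d ⊓
    Submodule.restrictScalars k (⨅ i : Fin s, pt (P i) ^ (w i))

/-- The 22 coordinates of the 11 points are algebraically independent over `ℚ`. -/
def Generic {k : Type} [Field k] [CharZero k] (P : Fin 11 → Fin 2 → k) : Prop :=
  AlgebraicIndependent ℚ (fun ij : Fin 11 × Fin 2 => P ij.1 ij.2)

/-- `G` is an irreducible form of degree `d` with multiplicity exactly `w i` at `P i` for all `i`: it
defines a prime divisor of class `d H - ∑ w i E i`. -/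
def Prime {k : Type} [Field k] (P : Fin 11 → Fin 2 → k) (w : Fin 11 → ℕ) (d : ℕ)
    (G : MvPolynomial (Fin 3) k) : Prop :=
  Irreducible G ∧ G.IsHomogeneous d ∧ ∀ i, G ∈ pt (P i) ^ (w i) ∧ G ∉ pt (P i) ^ (w i + 1)

/-- `h¹ (d H - ∑ w i E i) = 0`: the multiplicities impose independent conditions in degree `d`. -/
def HOneZero {k : Type} [Field k] (P : Fin 11 → Fin 2 → k) (w : Fin 11 → ℕ) (d : ℕ) : Prop :=
  Module.finrank k ↥(forms P w d) + ∑ i, (w i + 1).choose 2 = (d + 2).choose 2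

/-- For some generic points over some field of characteristic zero there is a prime divisor of degree
`d` with multiplicities in `{m, m + 1}` for some `m ≥ 1` and with `h¹ ≠ 0`. -/
def Bad (d : ℕ) : Prop :=
  ∃ (k : Type) (_ : Field k) (_ : CharZero k) (P : Fin 11 → Fin 2 → k) (w : Fin 11 → ℕ) (m : ℕ)
    (G : MvPolynomial (Fin 3) k), Generic P ∧ 1 ≤ m ∧ (∀ i, w i = m ∨ w i = m + 1) ∧ Prime P w d G ∧
      ¬ HOneZero P w d

theorem pos_of {k : Type} [Field k] {P : Fin 11 → Fin 2 → k} {w : Fin 11 → ℕ} {d : ℕ}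
    {G : MvPolynomial (Fin 3) k} (h : Prime P w d G) : 0 < Module.finrank k ↥(forms P w d) := by
  obtain ⟨hG, hGd, hord⟩ := h
  have hmem : G ∈ forms P w d := by
    unfold forms
    rw [Submodule.mem_inf, Submodule.restrictScalars_mem, Ideal.mem_iInf]
    exact ⟨hGd, fun i => (hord i).1⟩
  have hfin : Module.Finite k ↥(forms P w d) := by
    have h2 : forms P w d ≤ MvPolynomial.homogeneousSubmodule (Fin 3) k d := inf_le_left
    have h3 : Module.Finite k ↥(MvPolynomial.homogeneousSubmodule (Fin 3) k d) :=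
      Module.Finite.iff_fg.2 (MvPolynomial.homogeneousSubmodule_fg _ _ d)
    exact Submodule.finiteDimensional_of_le h2
  rw [Module.finrank_pos_iff_exists_ne_zero]
  refine ⟨⟨G, hmem⟩, fun h => hG.ne_zero ?_⟩
  exact congrArg Subtype.val h

open Pool.Agent.TH176.Nag Pool.Agent.TH603.Sur in
theorem finrank_of {k : Type} [Field k] [CharZero k] {P : Fin 11 → Fin 2 → k} (hP : Generic P)
    {w : Fin 11 → ℕ} {d : ℕ} (h : Emp w (TZ d) ∨ Sur w (TZ d)) :
    Module.finrank k ↥(forms P w d) = (d + 2).choose 2 - ∑ i, (w i + 1).choose 2 := by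
  obtain ⟨F, hF, hF'⟩ := Pool.Agent.TH864.SX.expDim_of_or' (w := w) (G := fun d' => d' = d)
    (fun d' hd' => by rw [hd']; exact h)
  have h0 : MvPolynomial.aeval (fun ij : Fin 11 × Fin 2 => P ij.1 ij.2) F ≠ 0 := by
    intro h
    apply hF
    have h1 : Function.Injective
        (MvPolynomial.aeval (R := ℚ) (fun ij : Fin 11 × Fin 2 => P ij.1 ij.2)) := hP
    exact h1 (by rw [h, map_zero])
  exact hF' P h0 d rfl

/-- The excess `∑ (w i - g)⁺` and the defect `∑ (g - w i)⁺` of the multiplicities with respect to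
`g = ⌊d / √11⌋` satisfy `(10 - 3 √11) excess + defect ≤ √11 d - ∑ w i`. -/
def Near (d : ℕ) (w : Fin 11 → ℕ) : Prop :=
  (10 - 3 * √11) * ((∑ i, (w i - ⌊(d : ℝ) / √11⌋₊) : ℕ) : ℝ) +
    ((∑ i, (⌊(d : ℝ) / √11⌋₊ - w i) : ℕ) : ℝ) ≤ √11 * d - ∑ i, (w i : ℝ)

/-- a nonzero polynomial does not vanish at generic points -/
theorem aeval_ne {k : Type} [Field k] [CharZero k] {P : Fin 11 → Fin 2 → k} (hP : Generic P)
    {F : MvPolynomial (Fin 11 × Fin 2) ℚ} (hF : F ≠ 0) :
    MvPolynomial.aeval (fun ij : Fin 11 × Fin 2 => P ij.1 ij.2) F ≠ 0 := by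
  intro h
  apply hF
  have h1 : Function.Injective
      (MvPolynomial.aeval (R := ℚ) (fun ij : Fin 11 × Fin 2 => P ij.1 ij.2)) := hP
  exact h1 (by rw [h, map_zero])

theorem mem_of {k : Type} [Field k] {P : Fin 11 → Fin 2 → k} {w : Fin 11 → ℕ} {d : ℕ}
    {G : MvPolynomial (Fin 3) k} (h : Prime P w d G) : G ∈ forms P w d := by
  obtain ⟨hG, hGd, hord⟩ := h
  unfold forms
  rw [Submodule.mem_inf, Submodule.restrictScalars_mem, Ideal.mem_iInf]
  exact ⟨hGd, fun i => (hord i).1⟩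

/-- **Prime divisors at eleven generic points.** -/
theorem result :
    (∀ (k : Type) [Field k] [CharZero k] (P : Fin 11 → Fin 2 → k) (w : Fin 11 → ℕ) (m d : ℕ)
      (G : MvPolynomial (Fin 3) k), Generic P → 1 ≤ m → (∀ i, w i = m ∨ w i = m + 1) →
        Prime P w d G →
        HOneZero P w d ∨ (Module.finrank k ↥(forms P w d) = 1 ∧
          (d + 2).choose 2 ≤ ∑ i, (w i + 1).choose 2 ∧
          √11 * (2 * d + 3) < 11 + 2 * ∑ i, (w i : ℝ))) ∧
    (∀ ε : ℝ, 0 < ε → ∃ d₀ : ℕ, ∀ (k : Type) [Field k] [CharZero k] (P : Fin 11 → Fin 2 → k)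
      (w : Fin 11 → ℕ) (d : ℕ) (G : MvPolynomial (Fin 3) k), Generic P → Prime P w d G →
        √11 * (2 * d + 3) < 11 + 2 * ∑ i, (w i : ℝ) →
        Module.finrank k ↥(forms P w d) = 1 ∧ 3 ∣ d ∧ Near d w ∧
        (d₀ ≤ d → 11 + 2 * ∑ i, (w i : ℝ) < √11 * (2 * d + 3) + ε)) ∧
    (∀ Q : ℕ, ∃ d₀ : ℕ, ∀ d d' : ℕ, d₀ ≤ d → d < d' → Bad d → Bad d' →
      3 ∣ d ∧ 3 ∣ d' ∧ d + Q ≤ d') := by
  have e0 : ∀ w : Fin 11 → ℕ, ((∑ i, w i : ℕ) : ℝ) = ∑ i, (w i : ℝ) := fun w => by
    push_cast; rfl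
  refine ⟨?_, ?_, ?_⟩
  · intro k _ _ P w m d G hP hm hw hG
    obtain ⟨F2, hF2, h2⟩ := U11.dims (n := 11) (w := w) (G := fun _ => True)
      (fun d _ => U11.near11_one hw d)
    have h4 := pos_of hG
    rcases h2 P (aeval_ne hP hF2) d trivial with h5 | ⟨h5, h6⟩
    · left
      have h5' : Module.finrank k ↥(forms P w d) =
        (d + 2).choose 2 - ∑ i, (w i + 1).choose 2 := h5
      unfold HOneZero
      omega
    · have h6' : Module.finrank k ↥(forms P w d) = 1 := h6
      rcases le_or_gt (11 + 2 * ((∑ i, w i : ℕ) : ℝ)) (√11 * (2 * d + 3)) with hX | hX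
      · left
        have hpar : Pool.Agent.TH759.EV.Par 2 1 (Pool.Agent.TH759.EV.LL 11)
            (√((11 : ℕ) : ℝ) * Pool.Agent.TH759.EV.LL 11) 11 :=
          Pool.Agent.TH759.EV.par_of (by norm_num) (by norm_num) (by norm_num) (by norm_num)
            (by norm_num)
        have hmax : ∀ i, max (w i) m = w i := fun i => by
          rcases hw i with h | h <;> omega
        have h7 := finrank_of hP (w := w) (d := d) (Or.inr
          (Pool.Agent.TH759.EV.Sur_pl hpar (Fintype.card_fin 11) (b := m)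
          (fun i => by rcases hw i with h | h <;> omega) (by
          simp only [hmax]
          push_cast at hX ⊢
          exact hX)))
        unfold HOneZero
        omega
      · exact Or.inr ⟨h6', h5, by rw [← e0]; exact hX⟩
  · intro ε hε
    obtain ⟨d₁, hd₁⟩ := Pool.Agent.U11.Emp_lin11 hε
    obtain ⟨d₂, hd₂⟩ := exists_nat_ge (20 / ε)
    refine ⟨max d₁ d₂, fun k _ _ P w d G hP hG hX => ?_⟩
    have h4 := pos_of hG
    obtain ⟨F1, hF1, h1⟩ := U11.arb_one w
    obtain ⟨k1, k2⟩ := h1 P (aeval_ne hP hF1) d (by rw [e0]; exact hX)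
    have k1' : Module.finrank k ↥(forms P w d) ≤ 1 := k1
    obtain ⟨g1, g2, -⟩ := k2 G (mem_of hG) hG.1.ne_zero
    refine ⟨by omega, g1, by unfold Near; rw [← e0]; exact g2, fun hd => ?_⟩
    by_contra hcon
    push Not at hcon
    have h1 := finrank_of hP (Or.inl (hd₁ w d ((le_max_left _ _).trans hd) (by
      push_cast
      exact hcon)))
    have h2 : (20 : ℝ) / ε ≤ d := by
      have h3 : ((d₂ : ℕ) : ℝ) ≤ d := by exact_mod_cast (le_max_right d₁ d₂).trans hd
      linarith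
    have h3 := Pool.Agent.U11.count_le hε h2 hcon
    omega
  · intro Q
    obtain ⟨ε, hε, hs⟩ := Pool.Agent.U11.sparse11 Q
    obtain ⟨d₀, hd₀⟩ := Pool.Agent.U11.near11 hε
    have key : ∀ a : ℕ, d₀ ≤ a → Bad a → 3 ∣ a ∧ ∃ W : ℕ, √11 * (2 * a + 3) < 11 + 2 * (W : ℝ) ∧
        11 + 2 * (W : ℝ) < √11 * (2 * a + 3) + ε := by
      rintro a ha ⟨k, _, _, P, w, m, G, hP, hm, hw, hG, hb⟩
      by_contra hcon
      apply hb
      have h1 := finrank_of hP (hd₀ w m a ha hw (by
        rintro ⟨h1, h2, h3⟩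
        exact hcon ⟨h1, ∑ i, w i, h2, h3⟩))
      have h4 := pos_of hG
      unfold HOneZero
      omega
    refine ⟨d₀, fun d d' hd hdd' hb hb' => ?_⟩
    obtain ⟨h1, W, h2⟩ := key d hd hb
    obtain ⟨h3, W', h4⟩ := key d' (hd.trans hdd'.le) hb'
    refine ⟨h1, h3, ?_⟩
    by_contra hcon
    push Not at hcon
    exact hs d d' W W' hdd' hcon h2 h4

end Pool.Agent.Results.MP_0dccba_ag.PrimeElevenRigid
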