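import Mathlib
import Pool.Agent.U390.NT.Base
import Pool.Agent.Y536.SH.Full

set_option autoImplicit false

/-!
# Prime divisors whose class reduces to nearly equal multiplicities with a tail have `h¹ = 0`

A vector `v` of multiplicities is called a base vector if there are a set `S` of `n` of the points
and natural numbers `m ≥ n / 2` and `T` with

* `v i = m` or `v i = m + 1` at the points of `S` and `24 T + 16 √n / 3 + 95 ≤ n`, or
  `v i = m` at the points of `S`, `n ≥ 149` and `8 T + 8 √n / 3 + 29 ≤ n`;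
* `v i ≤ T` at all other points, and the sum of the squares of those of these `v i` which are at
  least `2` is at most `T (m - T)`.

So `m` and `m + 1` occur `n` times in any proportion, any number of points is simple, and the tail
consists of arbitrary multiplicities up to about `n / 24` (`n / 8` for equal `v i` on `S`); the number
of its points is not bounded (it grows with `m`).

A class `(d; w)` is good if `w ≤ v` and `χ (d; v) ≥ 0`, or `v ≤ w` and `χ (d; v) ≤ 0`, for some base
vector `v`. Let `k` be a field of characteristic zero and `X` the blow-up of the plane at `s ≥ 4`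
generic points. If the class of a prime divisor `C` on `X` is good, then `h¹ (C) = 0`. In general
`h¹ (C) = 0`, or finitely many quadratic transformations carry the class of `C` to a standard class
with the same `h⁰` which is special and not good.
-/

namespace Pool.Agent.Results.MP_0dccba_ag.PrimeNearlyEqualTail

open MvPolynomial Pool.Agent.TH167.SHDefs

/-- `h¹` of the class `d H - ∑ w i E i`: the dimension of the linear system minus the virtual one. -/
noncomputable def hOne {k : Type} [Field k] {s : ℕ} (P : Fin s → Fin 2 → k) (d : ℕ)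
    (w : Fin s → ℕ) : ℤ := dimL P d w - virtdim d w

/-- The class is standard. -/
def Standard {s : ℕ} (d : ℕ) (w : Fin s → ℕ) : Prop :=
  ∀ i j l : Fin s, i ≠ j → i ≠ l → j ≠ l → w i + w j + w l ≤ d

/-- The base vectors: the multiplicities at the points of the set `S` are `m` or `m + 1`, or all
equal to `m`, where `|S| ≤ 2 m`; the other multiplicities are at most `T`, which is bounded by about
`|S| / 24` resp. `|S| / 8`, and the sum of the squares of those of them which are larger than `1` is
at most `T (m - T)`. -/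
def Base {h : ℕ} (v : Fin h → ℕ) : Prop :=
  ∃ (S : Finset (Fin h)) (m T : ℕ), S.card ≤ 2 * m ∧
    (((∀ i ∈ S, v i = m ∨ v i = m + 1) ∧
        24 * (T : ℝ) + 16 * √(S.card : ℝ) / 3 + 95 ≤ S.card) ∨
      ((∀ i ∈ S, v i = m) ∧ 149 ≤ S.card ∧
        8 * (T : ℝ) + 8 * √(S.card : ℝ) / 3 + 29 ≤ S.card)) ∧
    (∀ j, j ∉ S → v j ≤ T) ∧
    ∑ j ∈ Finset.univ.filter (fun j => j ∉ S ∧ 2 ≤ v j), v j ^ 2 + T ^ 2 ≤ T * m

/-- The good classes: on one side of `χ = 0` with a base vector. -/
def Good {h : ℕ} (d : ℕ) (w : Fin h → ℕ) : Prop :=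
  ∃ v : Fin h → ℕ, Base v ∧
    (((∀ i, w i ≤ v i) ∧ ∑ i, (v i + 1).choose 2 ≤ (d + 2).choose 2) ∨
      ((∀ i, v i ≤ w i) ∧ (d + 2).choose 2 ≤ ∑ i, (v i + 1).choose 2))

theorem good_exp {h d : ℕ} {w : Fin h → ℕ} (hw : Good d w) {K : Type} [Field K] [CharZero K]
    {P : Fin h → Fin 2 → K}
    (hP : AlgebraicIndependent ℚ (fun ij : Fin h × Fin 2 => P ij.1 ij.2)) :
    Pool.Agent.H932R3.ExpDim K w P d :=
  Pool.Agent.U390.NT.good_exp hw hP

theorem result (k : Type) [Field k] [CharZero k] (s : ℕ) (hs : 4 ≤ s) (P : Fin s → Fin 2 → k)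
    (hP : AlgebraicIndependent ℚ (fun ij : Fin s × Fin 2 => P ij.1 ij.2))
    (d : ℕ) (w : Fin s → ℕ) (C : MvPolynomial (Fin 3) k) (hC : Curve P C d w) :
    (Good d w → hOne P d w = 0) ∧
    (hOne P d w = 0 ∨ ∃ (d1 : ℕ) (w1 : Fin s → ℕ),
      Relation.ReflTransGen Quadratic (d, w) (d1, w1) ∧ Standard d1 w1 ∧
      Special P d1 w1 ∧ dimL P d1 w1 = dimL P d w ∧ ¬ Good d1 w1) := by
  constructor
  · intro hG
    have h1 := good_exp hG hP
    rw [Pool.Agent.TH442.NF.expDim_iff] at h1
    obtain ⟨hCi, hCh, hCo⟩ := Pool.Agent.TH167.SH.curve_iff.1 hC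
    have hmem : C ∈ Pool.Agent.W609.CR.VS (fun j => Pool.Agent.W609.CR.aff (P j)) w d :=
      (Pool.Agent.TH167.SH.mem_VS _ _ _ _).2 ⟨hCh, fun j => (hCo j).1⟩
    have hfin := Pool.Agent.W609.CR.vs_fin (fun j => Pool.Agent.W609.CR.aff (P j)) w d
    have hpos : 0 < Module.finrank k
        ↥(Pool.Agent.W609.CR.VS (fun j => Pool.Agent.W609.CR.aff (P j)) w d) :=
      Module.finrank_pos_iff.2 ⟨⟨C, hmem⟩, 0, fun h7 => hCi.ne_zero (congrArg Subtype.val h7)⟩
    unfold hOne
    rw [Pool.Agent.TH167.SH.dimL_eq, Pool.Agent.TH167.SH.virtdim_eq]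
    omega
  · obtain ⟨r, rfl⟩ : ∃ r, s = r + 4 := ⟨s - 4, by omega⟩
    by_cases h : dimL P d w = virtdim d w
    · left
      unfold hOne
      omega
    · right
      exact Pool.Agent.Y536.SH.prime_full (Q := fun d' w' => Good d' w')
        (fun hP d1 w1 _ hG => good_exp hG hP) hP hC h

end Pool.Agent.Results.MP_0dccba_ag.PrimeNearlyEqualTail
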