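import Mathlib
import Pool.Agent.U605.ST.Side
import Pool.Agent.Y536.SH.Full

set_option autoImplicit false

/-!
# Prime divisors whose class reduces to equal multiplicities with a packed tail have `h¹ = 0`

A vector of `s` multiplicities is called a base vector if `n ≥ 36` of them are equal to `M` with
`n ≤ 4 (√n - 5) M`, any number of them are `1` or `0`, and for the others, the tail, there are
natural numbers `T`, `H` such that, with `room = (3 √n - 5 - n / (4 M)) / 4` and all sums over the tail,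

* `v i ≤ T` and `2 ∑ v i ^ 2 + T ^ 2 ≤ T H`;
* `T ≤ room` and `H ≤ 2 M`, or `room * H ≤ (2 room - T) M`;
* `∑ v i (v i + 1) ≤ (√n - 5) M`.

A class `(d; w)` is good if `w ≤ v` and `χ (d; v) ≥ 0`, or `v ≤ w` and `χ (d; v) ≤ 0`, for some base
vector `v`. Let `k` be a field of characteristic zero and `X` the blow-up of the plane at `s ≥ 4`
generic points. If the class of a prime divisor `C` on `X` is good, then `h¹ (C) = 0`. In general
`h¹ (C) = 0`, or finitely many quadratic transformations carry the class of `C` to a standard class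
with the same `h⁰` which is special and not good.
-/

namespace Pool.Agent.Results.MP_0dccba_ag.PrimePackedTail

open MvPolynomial Pool.Agent.TH167.SHDefs

/-- `h¹` of the class `d H - ∑ w i E i`: the dimension of the linear system minus the virtual one. -/
noncomputable def hOne {k : Type} [Field k] {s : ℕ} (P : Fin s → Fin 2 → k) (d : ℕ)
    (w : Fin s → ℕ) : ℤ := dimL P d w - virtdim d w

/-- The class is standard. -/
def Standard {s : ℕ} (d : ℕ) (w : Fin s → ℕ) : Prop :=
  ∀ i j l : Fin s, i ≠ j → i ≠ l → j ≠ l → w i + w j + w l ≤ d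

/-- The tail: the points whose multiplicity is at least `2` and different from `M`. -/
def tail {s : ℕ} (M : ℕ) (v : Fin s → ℕ) : Finset (Fin s) :=
  Finset.univ.filter fun i => 2 ≤ v i ∧ v i ≠ M

/-- The room beside `n` points of multiplicity `M`. -/
noncomputable def room (n M : ℕ) : ℝ := (3 * √(n : ℝ) - 5 - (n : ℝ) / (4 * M)) / 4

/-- The base vectors. -/
def Base {s : ℕ} (v : Fin s → ℕ) : Prop :=
  ∃ n M T H : ℕ, 36 ≤ n ∧ (Finset.univ.filter fun i => v i = M).card = n ∧
    (n : ℝ) ≤ 4 * (√(n : ℝ) - 5) * M ∧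
    (∀ i ∈ tail M v, v i ≤ T) ∧ 2 * ∑ i ∈ tail M v, v i ^ 2 + T ^ 2 ≤ T * H ∧
    ((H ≤ 2 * M ∧ (T : ℝ) ≤ room n M) ∨ room n M * H ≤ (2 * room n M - T) * M) ∧
    ∑ i ∈ tail M v, (v i : ℝ) * (v i + 1) ≤ (√(n : ℝ) - 5) * M

/-- The good classes: on one side of `χ = 0` with a base vector. -/
def Good {s : ℕ} (d : ℕ) (w : Fin s → ℕ) : Prop :=
  ∃ v : Fin s → ℕ, Base v ∧
    (((∀ i, w i ≤ v i) ∧ ∑ i, (v i + 1).choose 2 ≤ (d + 2).choose 2) ∨
      ((∀ i, v i ≤ w i) ∧ (d + 2).choose 2 ≤ ∑ i, (v i + 1).choose 2))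

theorem good_exp {s d : ℕ} {w : Fin s → ℕ} (hw : Good d w) {K : Type} [Field K] [CharZero K]
    {P : Fin s → Fin 2 → K}
    (hP : AlgebraicIndependent ℚ (fun ij : Fin s × Fin 2 => P ij.1 ij.2)) :
    Pool.Agent.H932R3.ExpDim K w P d := by
  obtain ⟨v, ⟨n, M, T, H, hn, hcard, hM, hT, hTH, hroom, hsum⟩, hs⟩ := hw
  obtain ⟨F, hF, hF'⟩ := Pool.Agent.U605.ST.expDim_packed v hn hM hcard hT hTH hroom hsum
  exact Pool.Agent.U605.ST.expDim_side
    (hF' P (fun h0 => hF (hP.eq_zero_of_aeval_eq_zero F h0)) d) hs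

theorem result (k : Type) [Field k] [CharZero k] (s : ℕ) (hs : 4 ≤ s) (P : Fin s → Fin 2 → k)
    (hP : AlgebraicIndependent ℚ (fun ij : Fin s × Fin 2 => P ij.1 ij.2))
    (d : ℕ) (w : Fin s → ℕ) (C : MvPolynomial (Fin 3) k) (hC : Curve P C d w) :
    (Good d w → hOne P d w = 0) ∧
    (hOne P d w = 0 ∨ ∃ (d1 : ℕ) (w1 : Fin s → ℕ),
      Relation.ReflTransGen Quadratic (d, w) (d1, w1) ∧ Standard d1 w1 ∧
      Special P d1 w1 ∧ dimL P d1 w1 = dimL P d w ∧ ¬ Good d1 w1) := by
  constructor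
  · intro hG
    have h1 := good_exp hG hP
    rw [Pool.Agent.TH442.NF.expDim_iff] at h1
    obtain ⟨hCi, hCh, hCo⟩ := Pool.Agent.TH167.SH.curve_iff.1 hC
    have hmem : C ∈ Pool.Agent.W609.CR.VS (fun j => Pool.Agent.W609.CR.aff (P j)) w d :=
      (Pool.Agent.TH167.SH.mem_VS _ _ _ _).2 ⟨hCh, fun j => (hCo j).1⟩
    have hfin := Pool.Agent.W609.CR.vs_fin (fun j => Pool.Agent.W609.CR.aff (P j)) w d
    have hpos : 0 < Module.finrank k
        ↥(Pool.Agent.W609.CR.VS (fun j => Pool.Agent.W609.CR.aff (P j)) w d) :=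
      Module.finrank_pos_iff.2 ⟨⟨C, hmem⟩, 0, fun h7 => hCi.ne_zero (congrArg Subtype.val h7)⟩
    unfold hOne
    rw [Pool.Agent.TH167.SH.dimL_eq, Pool.Agent.TH167.SH.virtdim_eq]
    omega
  · obtain ⟨r, rfl⟩ : ∃ r, s = r + 4 := ⟨s - 4, by omega⟩
    by_cases h : dimL P d w = virtdim d w
    · left
      unfold hOne
      omega
    · right
      exact Pool.Agent.Y536.SH.prime_full (Q := fun d' w' => Good d' w')
        (fun hP d1 w1 _ hG => good_exp hG hP) hP hC h

end Pool.Agent.Results.MP_0dccba_ag.PrimePackedTail
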